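import Mathlib
import Pool.Agent.Helper636_AG.AbDefs

/-!
# Abelian groups on `ℝ` with an `F_σ` graph

By Baire category the operation is continuous on some open rectangle. This yields nonzero elements
which can be halved again and again.
-/

set_option autoImplicit false

namespace Pool.Agent.Helper71.FSig

open Cardinal Set Topology Pool.Agent.Helper636_AG.Ab

/-! ### A group with a set of nonzero elements closed under halving -/

section Halving

variable {A : Type*} [AddCommGroup A]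

theorem not_free_of_halving (g : ℕ → A) (h0 : g 0 ≠ 0) (hg : ∀ n, g n = g (n + 1) + g (n + 1)) :
    ¬ Module.Free ℤ (AddSubgroup.closure (range g)) := by
  intro hfree
  let H := AddSubgroup.closure (range g)
  let b := Module.Free.chooseBasis ℤ H
  let Z : ℕ → H := fun n => ⟨g n, AddSubgroup.subset_closure ⟨n, rfl⟩⟩
  have hZ : ∀ n, Z n = Z (n + 1) + Z (n + 1) := fun n => Subtype.ext (hg n)
  have h2 : ∀ n, Z 0 = (2 : ℤ) ^ n • Z n := by
    intro n
    induction n with
    | zero => simp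
    | succ n ih =>
      rw [ih, hZ n, pow_succ, mul_smul, two_smul]
  have h3 : Z 0 = 0 := by
    apply b.repr.injective
    ext s
    rw [map_zero, Finsupp.zero_apply]
    by_contra hne
    have h7 : ∀ n, ((2 : ℤ) ^ n) ∣ b.repr (Z 0) s := fun n => ⟨b.repr (Z n) s, by
      have := congrArg (fun x => b.repr x s) (h2 n)
      simpa using this⟩
    have h8 := Int.natAbs_dvd_natAbs.2 (h7 (b.repr (Z 0) s).natAbs)
    rw [Int.natAbs_pow] at h8
    have h9 := Nat.le_of_dvd (Int.natAbs_pos.2 hne) h8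
    exact absurd h9 (not_le.2 (Nat.lt_two_pow_self))
  exact h0 (congrArg Subtype.val h3)

theorem countable_closure_range (g : ℕ → A) :
    Countable (AddSubgroup.closure (range g)) := by
  have h : (AddSubgroup.closure (range g)) = (Submodule.span ℤ (range g)).toAddSubgroup := by
    rw [Submodule.span_int_eq_addSubgroupClosure]
  have h2 : Countable (Submodule.span ℤ (range g)) := inferInstance
  rw [h]
  exact h2

theorem exists_not_free (D : Set A) (hD : D.Nonempty) (h0 : (0 : A) ∉ D)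
    (h : ∀ g ∈ D, ∃ g' ∈ D, g = g' + g') :
    ∃ H : AddSubgroup A, Countable H ∧ ¬ Module.Free ℤ H := by
  obtain ⟨d, hd⟩ := hD
  choose! f hf hf' using h
  let g : ℕ → A := fun n => f^[n] d
  have hg : ∀ n, g n ∈ D := by
    intro n
    induction n with
    | zero => exact hd
    | succ n ih =>
      show f^[n + 1] d ∈ D
      rw [Function.iterate_succ_apply']
      exact hf _ ih
  refine ⟨AddSubgroup.closure (range g), countable_closure_range g,
    not_free_of_halving g (fun h => h0 (h ▸ hg 0)) fun n => ?_⟩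
  show f^[n] d = f^[n + 1] d + f^[n + 1] d
  rw [Function.iterate_succ_apply']
  exact hf' _ (hg n)

end Halving

/-! ### Continuity on a rectangle -/

theorem continuousOn_of_graph {K : Set (ℝ × ℝ × ℝ)} (hK : IsCompact K) {m : ℝ × ℝ → ℝ}
    (hm : ∀ p ∈ K, m (p.1, p.2.1) = p.2.2) :
    ContinuousOn m ((fun p : ℝ × ℝ × ℝ => (p.1, p.2.1)) '' K) := by
  rw [continuousOn_iff_isClosed]
  intro t ht
  have hc : Continuous fun p : ℝ × ℝ × ℝ => (p.1, p.2.1) := by fun_prop
  refine ⟨(fun p : ℝ × ℝ × ℝ => (p.1, p.2.1)) '' (K ∩ (fun p => p.2.2) ⁻¹' t), ?_, ?_⟩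
  · exact ((hK.inter_right (ht.preimage (by fun_prop))).image hc).isClosed
  · ext q
    constructor
    · rintro ⟨h1, ⟨p, hp, rfl⟩⟩
      refine ⟨⟨p, ⟨hp, ?_⟩, rfl⟩, ⟨p, hp, rfl⟩⟩
      show p.2.2 ∈ t
      rw [← hm p hp]
      exact h1
    · rintro ⟨⟨p, ⟨hp, hpt⟩, rfl⟩, h2⟩
      refine ⟨?_, h2⟩
      show m (p.1, p.2.1) ∈ t
      rw [hm p hp]
      exact hpt

theorem exists_rectangle {m : ℝ × ℝ → ℝ} {F : ℕ → Set (ℝ × ℝ × ℝ)} (hF : ∀ n, IsClosed (F n))
    (hm : {p : ℝ × ℝ × ℝ | m (p.1, p.2.1) = p.2.2} = ⋃ n, F n) :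
    ∃ (a c ε : ℝ), 0 < ε ∧
      ContinuousOn m (Ioo (a - ε) (a + ε) ×ˢ Ioo (c - ε) (c + ε)) := by
  let K : ℕ × ℕ → Set (ℝ × ℝ × ℝ) := fun i => F i.1 ∩ Metric.closedBall 0 i.2
  have hK : ∀ i, IsCompact (K i) := fun i =>
    (isCompact_closedBall _ _).inter_left (hF i.1)
  let π : ℝ × ℝ × ℝ → ℝ × ℝ := fun p => (p.1, p.2.1)
  have hπ : Continuous π := by fun_prop
  have hsub : ∀ i, ∀ p ∈ K i, m (p.1, p.2.1) = p.2.2 := by
    intro i p hp
    have : p ∈ {p : ℝ × ℝ × ℝ | m (p.1, p.2.1) = p.2.2} := by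
      rw [hm]
      exact mem_iUnion.2 ⟨i.1, hp.1⟩
    exact this
  have hU : ⋃ i, π '' K i = Set.univ := by
    rw [eq_univ_iff_forall]
    rintro ⟨x, y⟩
    have : (x, y, m (x, y)) ∈ ⋃ n, F n := by
      rw [← hm]
      exact rfl
    obtain ⟨n, hn⟩ := mem_iUnion.1 this
    obtain ⟨k, hk⟩ := exists_nat_ge (dist (x, y, m (x, y)) (0 : ℝ × ℝ × ℝ))
    exact mem_iUnion.2 ⟨(n, k), (x, y, m (x, y)), ⟨hn, hk⟩, rfl⟩
  obtain ⟨i, ⟨p, hp⟩⟩ := nonempty_interior_of_iUnion_of_closed
    (fun i => ((hK i).image hπ).isClosed) hU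
  obtain ⟨ε, hε, hb⟩ := Metric.isOpen_iff.1 isOpen_interior p hp
  refine ⟨p.1, p.2, ε, hε, ?_⟩
  have h1 := continuousOn_of_graph (hK i) (hsub i)
  refine h1.mono (Subset.trans ?_ (hb.trans interior_subset))
  rw [← Real.ball_eq_Ioo, ← Real.ball_eq_Ioo, ball_prod_same]

/-! ### Halving -/

/-- a nonvanishing continuous function on an interval has constant sign -/
theorem same_sign {f : ℝ → ℝ} {s : Set ℝ} (hs : OrdConnected s) (hf : ContinuousOn f s)
    (h0 : ∀ x ∈ s, f x ≠ 0) {x y : ℝ} (hx : x ∈ s) (hy : y ∈ s) (h : 0 < f x) : 0 < f y := by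
  by_contra hc
  have hlt : f y < 0 := lt_of_le_of_ne (not_lt.1 hc) (h0 y hy)
  have h1 : uIcc x y ⊆ s := hs.uIcc_subset hx hy
  have h2 := intermediate_value_uIcc (hf.mono h1)
  have h3 : (0 : ℝ) ∈ uIcc (f x) (f y) := by
    rw [mem_uIcc]
    exact Or.inr ⟨hlt.le, h.le⟩
  obtain ⟨z, hz, hz0⟩ := h2 h3
  exact h0 z (h1 hz) hz0

theorem halving {op : ℝ × ℝ → ℝ} (op_left_inj : ∀ x x' y, op (x, y) = op (x', y) → x = x')
    (op_right_inj : ∀ x y y', op (x, y) = op (x, y') → y = y') {a c ε : ℝ} (hε : 0 < ε)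
    (hc : ContinuousOn op (Ioo (a - ε) (a + ε) ×ˢ Ioo (c - ε) (c + ε))) :
    ∃ x1, a < x1 ∧ ∀ x ∈ Ioc a x1, ∃ x' ∈ Ioc a x1, ∃ y,
      op (x', y) = op (x, c) ∧ op (a, y) = op (x', c) := by
  set I := Ioo (a - ε) (a + ε) with hI
  set J := Ioo (c - ε) (c + ε) with hJ
  have haI : a ∈ I := ⟨by linarith, by linarith⟩
  have hcJ : c ∈ J := ⟨by linarith, by linarith⟩
  -- the two coordinate functions
  let s : ℝ → ℝ := fun x => op (x, c)
  let q : ℝ → ℝ := fun y => op (a, y)
  have hs : ContinuousOn s I := hc.comp (by fun_prop) fun x hx => ⟨hx, hcJ⟩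
  have hq : ContinuousOn q J := hc.comp (by fun_prop) fun y hy => ⟨haI, hy⟩
  set J0 := Icc (c - ε / 2) (c + ε / 2) with hJ0
  have hJ0J : J0 ⊆ J := fun y hy => ⟨by linarith [hy.1], by linarith [hy.2]⟩
  have hq0 : ContinuousOn q J0 := hq.mono hJ0J
  have hqinj : InjOn q J0 := fun y _ y' _ h => op_right_inj _ _ _ h
  -- `q '' J0` is a neighbourhood of `q c`
  have hnhds : q '' J0 ∈ 𝓝 (q c) := by
    have hle : c - ε / 2 ≤ c + ε / 2 := by linarith
    have hl : c - ε / 2 ∈ J0 := ⟨le_refl _, hle⟩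
    have hr : c + ε / 2 ∈ J0 := ⟨hle, le_refl _⟩
    have hm : c ∈ J0 := ⟨by linarith, by linarith⟩
    have himg := intermediate_value_uIcc (a := c - ε / 2) (b := c + ε / 2)
      (by rw [uIcc_of_le hle]; exact hq0)
    rw [uIcc_of_le hle] at himg
    refine Filter.mem_of_superset ?_ himg
    rcases hq0.strictMonoOn_of_injOn_Icc' hle hqinj with h | h
    · have h1 : q (c - ε / 2) < q c := h hl hm (by linarith)
      have h2 : q c < q (c + ε / 2) := h hm hr (by linarith)
      rw [uIcc_of_le (h1.trans h2).le]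
      exact Icc_mem_nhds h1 h2
    · have h1 : q c < q (c - ε / 2) := h hl hm (by linarith)
      have h2 : q (c + ε / 2) < q c := h hm hr (by linarith)
      rw [uIcc_of_ge (h2.trans h1).le]
      exact Icc_mem_nhds h2 h1
  have hsa : ContinuousAt s a := hs.continuousAt (Ioo_mem_nhds haI.1 haI.2)
  have hsq : s a = q c := rfl
  have hpre : s ⁻¹' (q '' J0) ∩ I ∈ 𝓝 a := by
    refine Filter.inter_mem (hsa ?_) (Ioo_mem_nhds haI.1 haI.2)
    rw [hsq]
    exact hnhds
  obtain ⟨δ, hδ, hball⟩ := Metric.mem_nhds_iff.1 hpre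
  have hsub : Icc a (a + δ / 2) ⊆ s ⁻¹' (q '' J0) ∩ I := by
    intro x hx
    apply hball
    rw [Metric.mem_ball, Real.dist_eq, abs_lt]
    constructor
    · linarith [hx.1]
    · linarith [hx.2]
  -- the inverse function
  have hex : ∀ x, ∃ y, x ∈ Icc a (a + δ / 2) → y ∈ J0 ∧ q y = s x := by
    intro x
    by_cases hx : x ∈ Icc a (a + δ / 2)
    · obtain ⟨y, hy, h⟩ := (hsub hx).1
      exact ⟨y, fun _ => ⟨hy, h⟩⟩
    · exact ⟨0, fun h => absurd h hx⟩
  choose y' hy' using hex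
  have hy'cont : ContinuousOn y' (Icc a (a + δ / 2)) := by
    rw [continuousOn_iff_isClosed]
    intro t ht
    have hcomp : IsCompact (q '' (J0 ∩ t)) :=
      (isCompact_Icc.inter_right ht).image_of_continuousOn (hq0.mono inter_subset_left)
    obtain ⟨u, hu, hu'⟩ := continuousOn_iff_isClosed.1
      (hs.mono (fun x hx => (hsub hx).2) : ContinuousOn s (Icc a (a + δ / 2))) _ hcomp.isClosed
    refine ⟨u, hu, ?_⟩
    rw [← hu']
    ext x
    constructor
    · rintro ⟨h1, h2⟩
      exact ⟨⟨y' x, ⟨(hy' x h2).1, h1⟩, (hy' x h2).2⟩, h2⟩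
    · rintro ⟨⟨y, ⟨h1, h1'⟩, h2⟩, h3⟩
      refine ⟨?_, h3⟩
      have : y' x = y := hqinj (hy' x h3).1 h1 ((hy' x h3).2.trans h2.symm)
      show y' x ∈ t
      rw [this]
      exact h1'
  -- the doubling function
  let Hf : ℝ → ℝ := fun x => op (x, y' x)
  have hHcont : ContinuousOn Hf (Icc a (a + δ / 2)) :=
    hc.comp (continuousOn_id.prodMk hy'cont) fun x hx => ⟨(hsub hx).2, hJ0J (hy' x hx).1⟩
  have hya : y' a = c := by
    have haa : a ∈ Icc a (a + δ / 2) := ⟨le_refl _, by linarith⟩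
    exact hqinj (hy' a haa).1 ⟨by linarith, by linarith⟩ (hy' a haa).2
  have hHa : Hf a = s a := by
    show op (a, y' a) = op (a, c)
    rw [hya]
  refine ⟨a + δ / 2, by linarith, fun x hx => ?_⟩
  have hxc : x ∈ Icc a (a + δ / 2) := Ioc_subset_Icc_self hx
  have hxI : x ∈ I := (hsub hxc).2
  -- `s x` is between `s a` and `Hf x`
  have hbet : s x ∈ uIcc (Hf a) (Hf x) := by
    have hd : ContinuousOn (fun y => op (x, y) - op (a, y)) J :=
      (hc.comp (by fun_prop) fun y hy => ⟨hxI, hy⟩).sub hq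
    have hd0 : ∀ y ∈ J, op (x, y) - op (a, y) ≠ 0 := by
      intro y _ h
      have := op_left_inj _ _ _ (sub_eq_zero.1 h)
      exact absurd this hx.1.ne'
    have hyJ : y' x ∈ J := hJ0J (hy' x hxc).1
    have hqy : q (y' x) = s x := (hy' x hxc).2
    rw [hHa, mem_uIcc]
    rcases lt_or_gt_of_ne (hd0 c hcJ) with h | h
    · right
      have h1 := same_sign ordConnected_Ioo hd.neg
        (fun y hy => neg_ne_zero.2 (hd0 y hy)) hcJ hyJ (neg_pos.2 h)
      have h2 : op (x, y' x) - op (a, y' x) < 0 := neg_pos.1 h1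
      constructor
      · show op (x, y' x) ≤ s x
        rw [← hqy]
        show op (x, y' x) ≤ op (a, y' x)
        linarith
      · show op (x, c) ≤ op (a, c)
        linarith
    · left
      have h1 := same_sign ordConnected_Ioo hd hd0 hcJ hyJ h
      constructor
      · show op (a, c) ≤ op (x, c)
        linarith
      · show s x ≤ op (x, y' x)
        rw [← hqy]
        show op (a, y' x) ≤ op (x, y' x)
        linarith
  have hsubx : uIcc a x ⊆ Icc a (a + δ / 2) := by
    rw [uIcc_of_le hx.1.le]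
    exact Icc_subset_Icc_right hx.2
  obtain ⟨x', hx', hx'2⟩ := intermediate_value_uIcc (hHcont.mono hsubx) hbet
  have hx'c : x' ∈ Icc a (a + δ / 2) := hsubx hx'
  refine ⟨x', ⟨lt_of_le_of_ne hx'c.1 fun h => ?_, hx'c.2⟩, y' x', hx'2, (hy' x' hx'c).2⟩
  subst h
  have h1 : Hf a = s x := hx'2
  rw [hHa] at h1
  exact absurd (op_left_inj _ _ _ h1) hx.1.ne

/-! ### The group -/

section Group

variable (G : AddCommGroup ℝ)

/-- The operation of `G` as a function on the plane. -/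
def op (p : ℝ × ℝ) : ℝ := G.add p.1 p.2

/-- The identity map to the group. -/
def cc (x : ℝ) : Carrier G := x

theorem cc_op (x y : ℝ) : cc G (op G (x, y)) = cc G x + cc G y := rfl

theorem cc_inj {x y : ℝ} (h : cc G x = cc G y) : x = y := h

variable {G}

theorem op_left_inj (x x' y : ℝ) (h : op G (x, y) = op G (x', y)) : x = x' := by
  have h1 : cc G x + cc G y = cc G x' + cc G y := by rw [← cc_op, ← cc_op, h]
  exact cc_inj G (add_right_cancel h1)

theorem op_right_inj (x y y' : ℝ) (h : op G (x, y) = op G (x, y')) : y = y' := by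
  have h1 : cc G x + cc G y = cc G x + cc G y' := by rw [← cc_op, ← cc_op, h]
  exact cc_inj G (add_left_cancel h1)

theorem half_eq {x x' y a c : ℝ} (h1 : op G (x', y) = op G (x, c))
    (h2 : op G (a, y) = op G (x', c)) :
    cc G x - cc G a = (cc G x' - cc G a) + (cc G x' - cc G a) := by
  have e1 : cc G x' + cc G y = cc G x + cc G c := by
    rw [← cc_op, ← cc_op, h1]
  have e2 : cc G a + cc G y = cc G x' + cc G c := by
    rw [← cc_op, ← cc_op, h2]
  have e3 : cc G y = cc G x' + cc G c - cc G a := by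
    rw [← e2]
    abel
  have e4 : cc G x = cc G x' + cc G y - cc G c := by
    rw [e1]
    abel
  rw [e4, e3]
  abel

end Group

/-- Every abelian group on `ℝ` with an `F_σ` graph has a countable subgroup which is not free. -/
theorem exists_countable_not_free (G : AddCommGroup ℝ) (hG : IsFSigma (graph G)) :
    ∃ H : AddSubgroup (Carrier G), Countable H ∧ ¬ Module.Free ℤ H := by
  obtain ⟨F, hF, hU⟩ := hG
  obtain ⟨a, c, ε, hε, hcont⟩ := exists_rectangle (m := op G) hF hU
  obtain ⟨x1, hx1, h⟩ := halving op_left_inj op_right_inj hε hcont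
  refine exists_not_free {g | ∃ x ∈ Ioc a x1, g = cc G x - cc G a} ⟨_, x1, ⟨hx1, le_refl _⟩, rfl⟩
    ?_ ?_
  · rintro ⟨x, hx, h0⟩
    have h1 : cc G x = cc G a := (sub_eq_zero.1 h0.symm)
    exact absurd (cc_inj G h1) hx.1.ne'
  · rintro _ ⟨x, hx, rfl⟩
    obtain ⟨x', hx', y, h1, h2⟩ := h x hx
    exact ⟨_, ⟨x', hx', rfl⟩, half_eq h1 h2⟩

end Pool.Agent.Helper71.FSig
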